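import Pool.Agent.H15.Eq3

/-! An equivalent renorming of the real Hilbert space over the first uncountable ordinal with no
uncountable equilateral set, without extra axioms. -/

set_option autoImplicit false

namespace Pool.Agent.Results.MP_55235b_an.Renorm

theorem result (H : Type) [NormedAddCommGroup H] [InnerProductSpace ℝ H]
    (b : HilbertBasis (Ordinal.omega.{0} 1).ToType ℝ H) :
    ∃ N : H → ℝ, (∀ x y, N (x + y) ≤ N x + N y) ∧ (∀ (c : ℝ) x, N (c • x) = |c| * N x) ∧
      (∀ x, ‖x‖ ≤ N x ∧ N x ≤ 2 * ‖x‖) ∧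
      ∀ (Y : Set H) (δ : ℝ), 0 < δ →
        (∀ y ∈ Y, ∀ y' ∈ Y, y ≠ y' → N (y - y') = δ) → Y.Countable := by
  revert b
  rw [← Cardinal.ord_aleph]
  intro b
  obtain ⟨N, h1, h2⟩ := Pool.Agent.H15.Eq.main
  refine ⟨fun x => N (b.repr x), fun x y => by simp only [map_add]; exact map_add_le_add N _ _,
    fun c x => by simp only [map_smul, map_smul_eq_mul, Real.norm_eq_abs],
    fun x => by simpa using h1 (b.repr x), fun Y δ hδ hY => ?_⟩
  refine Set.countable_of_injective_of_countable_image b.repr.injective.injOn (h2 _ δ hδ ?_)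
  rintro _ ⟨y, hy, rfl⟩ _ ⟨y', hy', rfl⟩ ne
  rw [← map_sub]
  exact hY y hy y' hy' fun e => ne (by rw [e])

end Pool.Agent.Results.MP_55235b_an.Renorm
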